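import Mathlib
import Pool.Agent.Lib.MP_26b317_lc.Model
import Pool.Agent.Lib.MP_26b317_lc.Main

/-!
A deterministic algorithm which, given a Hermitian tridiagonal matrix `A` and `δ > 0`, finds a
real diagonal `E` with entries in `[-1, 1]` such that the eigenvalues of `A + δ E` are separated
by at least `δ / (2 ^ 19 n ^ 13)`, in at most `10 ^ 5 n ^ 3 log n` steps, whatever the size of `A`.
The machine is defined in `Model`, the proof is in `Main` and the files it imports.
-/

namespace Pool.Agent.Results.MP_26b317_lc.Ramp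

open Pool.Agent.Lib.MP_26b317_lc

/-- There is a program which, for all `n ≥ 2`, all Hermitian tridiagonal `n × n` matrices `A` and
all `δ > 0`, takes at most `10 ^ 5 n ^ 3 log n` steps on the input `(n, A, δ)` and ends with a real
diagonal matrix `E = diag (e 0, …, e (n - 1))`, `|e i| ≤ 1`, in the column `0` of array `2`, such
that the eigenvalues of `A + δ E` have pairwise distances at least `δ / (2 ^ 19 n ^ 13)`. -/
theorem result :
    ∃ P : Cmd, ∀ n : ℕ, 2 ≤ n → ∀ A : Matrix (Fin n) (Fin n) ℂ, A.IsHermitian → IsTri A →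
      ∀ δ : ℝ, 0 < δ →
        (((P.exec (input A δ)).2 : ℕ) : ℝ) ≤ 10 ^ 5 * (n : ℝ) ^ 3 * Real.log n ∧
        ∃ e : Fin n → ℝ,
          (∀ i : Fin n, (P.exec (input A δ)).1.num 2 i 0 = (e i : ℂ)) ∧
          (∀ i : Fin n, |e i| ≤ 1) ∧
          ∃ hM : (A + (δ : ℂ) • Matrix.diagonal (fun i => (e i : ℂ))).IsHermitian,
            ∀ i j : Fin n, i ≠ j →
              δ / (2 ^ 19 * (n : ℝ) ^ 13) ≤ |hM.eigenvalues i - hM.eigenvalues j| := by
  obtain ⟨P, hP⟩ := main
  refine ⟨P, ?_⟩
  intro n hn A hA hT δ hδ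
  rw [Cmd.exec_eq]
  exact hP n hn A hA hT δ hδ

end Pool.Agent.Results.MP_26b317_lc.Ramp
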